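import Pool.Agent.H740R3.BQStmts

/-!
Task T5 of project H740-BQ: the orbit vector.
-/

set_option autoImplicit false

namespace Pool.Agent.H851R3.BQT5

open Pool.Agent.H740R3.BQ Matrix

theorem SM_mulVec {D : ℕ} (u : Fin D → ℂ) (i : Fin D) :
    (SM D).mulVec u i = if h : 0 < (i : ℕ) then u ⟨(i : ℕ) - 1, by omega⟩ else 0 := by
  unfold Matrix.mulVec dotProduct SM
  split_ifs with h
  · rw [Finset.sum_eq_single (⟨(i : ℕ) - 1, by omega⟩ : Fin D)]
    · have : (i : ℕ) = (i : ℕ) - 1 + 1 := by omega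
      simp [← this]
    · intro k _ hk
      have : ¬ ((i : ℕ) = (k : ℕ) + 1) := by
        intro h'
        apply hk
        ext
        simp [h']
      simp [this]
    · intro h'
      exact absurd (Finset.mem_univ _) h'
  · refine Finset.sum_eq_zero fun k _ => ?_
    have : ¬ ((i : ℕ) = (k : ℕ) + 1) := by omega
    simp [this]

theorem binom {D : ℕ} (z : ℂ) (m : ℕ) :
    ((1 + z • SM D) ^ m).mulVec (e0 D) = fun i : Fin D => (m.choose i : ℂ) * z ^ (i : ℕ) := by
  induction m with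
  | zero =>
    ext i
    rw [pow_zero, Matrix.one_mulVec]
    unfold e0
    rcases Nat.eq_zero_or_pos (i : ℕ) with h | h
    · simp [h]
    · rw [if_neg h.ne', Nat.choose_eq_zero_of_lt h]
      simp
  | succ m ih =>
    rw [pow_succ', ← Matrix.mulVec_mulVec, ih]
    ext i
    rw [Matrix.add_mulVec, Matrix.one_mulVec, Matrix.smul_mulVec, Pi.add_apply, Pi.smul_apply,
      SM_mulVec, smul_eq_mul]
    split_ifs with h
    · obtain ⟨j, hj⟩ : ∃ j, (i : ℕ) = j + 1 := ⟨(i : ℕ) - 1, by omega⟩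
      simp only [hj, Nat.add_sub_cancel]
      rw [Nat.choose_succ_succ]
      push_cast
      ring
    · have h0 : (i : ℕ) = 0 := by omega
      simp [h0]

theorem HM_apply (d : ℕ) (p : ℕ → ℂ) (ν : ℕ) (i k : Fin (6 * d + 6)) :
    HM d p ν i k = GM d (dl p (ν ^ (2 * d))) i k * (ν : ℂ) ^ (ex d k) := by
  unfold HM
  rw [Matrix.mul_diagonal]

theorem GM_lt {d : ℕ} {δ : ℕ → ℂ} {i k : Fin (6 * d + 6)} (hk : (k : ℕ) < 3 * d + 3) :
    GM d δ i k = if (i : ℕ) = k then 1 else 0 := by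
  unfold GM
  rw [if_pos hk]

theorem mv {D : ℕ} (M : Matrix (Fin D) (Fin D) ℂ) (u : Fin D → ℂ) (i : Fin D) :
    M.mulVec u i = ∑ k : Fin D, M i k * u k := rfl

theorem HM_e0 (d : ℕ) (p : ℕ → ℂ) (ν : ℕ) (hd : 1 ≤ d) :
    (HM d p ν).mulVec (e0 (6 * d + 6)) = e0 (6 * d + 6) := by
  ext i
  simp only [mv]
  rw [Finset.sum_eq_single (⟨0, by omega⟩ : Fin (6 * d + 6))]
  · rw [HM_apply, GM_lt (by simp)]
    have h2 : ex d 0 = 0 := by
      unfold ex
      rw [if_pos (by omega)]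
      simp
    unfold e0
    simp [h2]
  · intro k _ hk
    have : ¬ ((k : ℕ) = 0) := by
      intro h'
      apply hk
      ext
      simp [h']
    unfold e0
    simp [this]
  · intro h'
    exact absurd (Finset.mem_univ _) h'

theorem HM_w (d : ℕ) (p : ℕ → ℂ) (ν : ℕ) (hd : 1 ≤ d) (hp : ∀ k, d ≤ k → p k = 0) (hν : 1 ≤ ν) :
    (HM d p ν).mulVec (fun i : Fin (6 * d + 6) =>
      if (i : ℕ) < d then p i else if (i : ℕ) = 3 * d + 3 then (ν : ℂ)⁻¹ else 0) =
    fun i : Fin (6 * d + 6) => ((ν ^ (2 * d)).choose i : ℂ) * (((ν : ℂ) ^ (2 * d))⁻¹) ^ (i : ℕ) := by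
  have hν0 : (ν : ℂ) ≠ 0 := by
    have : ν ≠ 0 := by omega
    exact_mod_cast this
  have hw : (fun i : Fin (6 * d + 6) =>
      if (i : ℕ) < d then p i else if (i : ℕ) = 3 * d + 3 then (ν : ℂ)⁻¹ else 0) =
      (fun i : Fin (6 * d + 6) => if (i : ℕ) < d then p i else 0) +
      (fun i : Fin (6 * d + 6) => if (i : ℕ) = 3 * d + 3 then (ν : ℂ)⁻¹ else 0) := by
    ext i
    simp only [Pi.add_apply]
    by_cases h : (i : ℕ) < d
    · have h' : ¬ ((i : ℕ) = 3 * d + 3) := by omega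
      simp [h, h']
    · simp [h]
  rw [hw, Matrix.mulVec_add]
  ext i
  rw [Pi.add_apply]
  have s1 : (HM d p ν).mulVec (fun i : Fin (6 * d + 6) => if (i : ℕ) < d then p i else 0) i =
      p i * (((ν : ℂ) ^ (2 * d))⁻¹) ^ (i : ℕ) := by
    simp only [mv]
    rw [Finset.sum_eq_single i]
    · by_cases h : (i : ℕ) < d
      · rw [HM_apply, GM_lt (by omega), if_pos rfl, if_pos h]
        have h2 : (ν : ℂ) ^ (ex d i) = (((ν : ℂ) ^ (2 * d))⁻¹) ^ (i : ℕ) := by
          unfold ex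
          rw [if_pos h, _root_.zpow_neg, inv_pow, ← pow_mul]
          congr 1
        rw [h2]
        ring
      · rw [if_neg h, hp _ (not_lt.1 h)]
        simp
    · intro k _ hk
      by_cases h : (k : ℕ) < d
      · rw [HM_apply, GM_lt (by omega), if_neg (fun h' => hk (Fin.ext h'.symm))]
        simp
      · rw [if_neg h, mul_zero]
    · intro h'
      exact absurd (Finset.mem_univ _) h'
  have s2 : (HM d p ν).mulVec
      (fun i : Fin (6 * d + 6) => if (i : ℕ) = 3 * d + 3 then (ν : ℂ)⁻¹ else 0) i =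
      dl p (ν ^ (2 * d)) i := by
    simp only [mv]
    rw [Finset.sum_eq_single (⟨3 * d + 3, by omega⟩ : Fin (6 * d + 6))]
    · rw [HM_apply, if_pos rfl]
      have h2 : ex d ((⟨3 * d + 3, by omega⟩ : Fin (6 * d + 6)) : ℕ) = 1 := by
        unfold ex
        rw [if_neg (by simp only; omega), if_neg (by simp)]
        push_cast
        ring
      have h3 : GM d (dl p (ν ^ (2 * d))) i (⟨3 * d + 3, by omega⟩ : Fin (6 * d + 6)) =
          dl p (ν ^ (2 * d)) i := by
        unfold GM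
        simp
      rw [h2, h3, zpow_one]
      field_simp
    · intro k _ hk
      have : ¬ ((k : ℕ) = 3 * d + 3) := by
        intro h'
        apply hk
        ext
        simp [h']
      rw [if_neg this, mul_zero]
    · intro h'
      exact absurd (Finset.mem_univ _) h'
  rw [s1, s2]
  unfold dl
  push_cast
  rw [inv_pow]
  ring

theorem t5 : T5 := by
  intro d p ν hd hp hν hH
  refine ⟨HM_e0 d p ν hd, ?_⟩
  set H := HM d p ν with hHdef
  set z : ℂ := ((ν : ℂ) ^ (2 * d))⁻¹ with hz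
  have hsemi : SemiconjBy H (1 + BM d p ν) (1 + z • SM (6 * d + 6)) := by
    unfold SemiconjBy BM
    rw [mul_add, add_mul, mul_one, one_mul, Matrix.mul_smul, ← mul_assoc, ← mul_assoc,
      Matrix.mul_nonsing_inv _ hH, one_mul, Matrix.smul_mul]
  have h1 := (hsemi.pow_right (ν ^ (2 * d))).eq
  have h2 : H.mulVec (((1 + BM d p ν) ^ (ν ^ (2 * d))).mulVec (e0 (6 * d + 6))) =
      H.mulVec (fun i : Fin (6 * d + 6) =>
        if (i : ℕ) < d then p i else if (i : ℕ) = 3 * d + 3 then (ν : ℂ)⁻¹ else 0) := by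
    rw [Matrix.mulVec_mulVec, h1, ← Matrix.mulVec_mulVec, HM_e0 d p ν hd, binom,
      HM_w d p ν hd hp hν]
  have h3 := congrArg (fun v => H⁻¹.mulVec v) h2
  simp only [Matrix.mulVec_mulVec] at h3
  rw [← mul_assoc, Matrix.nonsing_inv_mul _ hH, one_mul, Matrix.one_mulVec] at h3
  exact h3

end Pool.Agent.H851R3.BQT5
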